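import Mathlib
import Pool.Agent.Q256.VM.Fin

set_option autoImplicit false

/-!
# The abc conjecture for finite subsets of the line, at all values of almost all rational maps

`α_1, …, α_m` (`m ≥ 2`) are distinct points of `ℙ¹(ℚ)`, `S` a finite set of primes, `h` the height
and `N(x) = ∑_{p ∉ S} ∑_l λ⁽¹⁾_p(α_l, x)` the truncated counting function.

`Y ⊆ ℙⁿ` is a fixed variety over `ℚ`, `𝒴` a set of its rational points (given by coprime
coordinates) and `w` a height for `-K_Y` on `𝒴` such that `∑_{y ∈ 𝒴} exp (-(w(y) + ε h(y)))`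
converges for all `ε > 0`, for instance `𝒴 = ℙⁿ(ℚ)` with `w = (n + 1) h`; let `w ≤ γ h + c₁`.
`X ⊆ Y` is the intersection with `s ≥ 0` hypersurfaces `G_j = 0` of degrees `e_j`, and
`φ = (A : B)` is the rational map from `X` to `ℙ¹` given by two forms of degree `d`.  The `M`
coefficients of the `G_j`, `A` and `B` run through `[-H, H]`.

Let `θ < 1` and `θ d > γ - ∑ e_j`, for instance `1 > θ > 2 / d` for the rational functions
`φ : ℙ¹ → ℙ¹` of degree `d ≥ 3`.  For all but `C T^(M - (s + θ) + ε)` of the pairs `(X, φ)`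
(`H ≤ T`) the inequality
`N(x) ≥ m (1 - θ / 2) h(x) - c`
holds for ALL values `x = φ(t)` different from the `α_l`, where `t` runs over all points of `𝒴` on
`X` (outside `A = B = 0`) which are cut out by `n` hyperplanes with integral coefficients in
`[-T, T]`, in particular over all points of height at most `T`.  The conjecture asks for the
coefficient `m - 2` instead of `m (1 - θ / 2)`; for `m = 3` (the abc conjecture) the theorem gives
every coefficient below `3 - 3 (n + 1) / (2 d)` for `X = ℙⁿ`, `d ≥ n + 2`.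

* `Box n d B` : forms of degree `d` in `n + 1` variables, integral coefficients in `[-B, B]`;
* `Prim y` : the integral vector `y` has coprime coordinates; `ht y` : its logarithmic height;
* `CutOut T x` : `x` is the intersection point of `n` independent hyperplanes with integral
  coefficients in `[-T, T]`;
* `Conv 𝒴 w` : the series converges;
* `lin a x = x₀ a₁ - x₁ a₀`; `htx x`, `N1x S α x` : `h(x)` and `N(x)` for coprime coordinates;
* `FailsMap` : the systems for which the inequality is violated by some value `x = φ(t)`.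
-/

namespace Pool.Agent.Results.MP_4d5ce1_nt.AllValuesOfAlmostAllMaps

open MvPolynomial
open Pool.Agent.Q256.CI Pool.Agent.Q256.VT Pool.Agent.Q256.VS Pool.Agent.Q256.VM

theorem result (m : ℕ) (hm : 2 ≤ m) (α : Fin m → Fin 2 → ℤ)
    (_hcop : ∀ l, IsCoprime (α l 0) (α l 1)) (hα : ∀ i j, i ≠ j → lin (α i) (α j) ≠ 0)
    (S : Finset ℕ) (n s : ℕ) (e : Fin s → ℕ) (d : ℕ)
    (𝒴 : Set (Fin (n + 1) → ℤ)) (hprim : ∀ y ∈ 𝒴, Prim y)
    (w : (Fin (n + 1) → ℤ) → ℝ) (hw : Conv 𝒴 w)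
    (γ c₁ : ℝ) (hγ : ∀ y ∈ 𝒴, w y ≤ γ * ht y + c₁)
    (θ : ℝ) (hθ1 : θ < 1) (hθ : γ - (∑ j, (e j : ℝ)) < θ * d) (ε : ℝ) (hε : 0 < ε) :
    (∃ C c : ℝ, ∀ (H T : ℕ), 1 ≤ H → H ≤ T →
      (Nat.card (FailsMap (n := n) S α e d 𝒴 H T θ c) : ℝ) ≤ C * (T : ℝ) ^
        ((∑ j, ((n + e j).choose n : ℝ)) + 2 * ((n + d).choose n : ℝ) - (s + θ) + ε)) ∧
    -- the number of all pairs, and the points of height at most `T`
    (∀ H : ℕ, Nat.card {P : Sys n s 2 // InBox e ![d, d] H P} =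
      (2 * H + 1) ^ ((∑ j, (n + e j).choose n) + 2 * (n + d).choose n)) ∧
    (∀ (T : ℕ) (y : Fin (n + 1) → ℤ), y ≠ 0 → (∀ j, |y j| ≤ T) →
      CutOut T (fun j => (y j : ℚ))) ∧
    -- examples: any set with a bound for the number of points, `ℙ^a`, and `ℙ^a × ℙ^b`
    (∀ (a : ℕ) (𝒵 : Set (Fin (a + 1) → ℤ)), (∀ y ∈ 𝒵, Prim y) → ∀ κ : ℝ,
      (∀ ε : ℝ, 0 < ε → ∃ C : ℝ, ∀ B : ℕ, 1 ≤ B →
        (Nat.card {y : Fin (a + 1) → ℤ // y ∈ 𝒵 ∧ ∀ k, |y k| ≤ B} : ℝ) ≤
          C * (B : ℝ) ^ (κ + ε)) → Conv 𝒵 (fun y => κ * ht y)) ∧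
    (∀ a : ℕ, Conv {y : Fin (a + 1) → ℤ | Prim y} (fun y => ((a : ℝ) + 1) * ht y)) ∧
    (∀ a b : ℕ, ∃ w : (Fin (a * b + a + b + 1) → ℤ) → ℝ,
      (∀ (u : Fin (a + 1) → ℤ) (v : Fin (b + 1) → ℤ), Prim u → Prim v →
        w (segre u v) = ((a : ℝ) + 1) * ht u + ((b : ℝ) + 1) * ht v) ∧
      Conv {y | ∃ (u : Fin (a + 1) → ℤ) (v : Fin (b + 1) → ℤ),
        Prim u ∧ Prim v ∧ y = segre u v} w) := by
  refine ⟨?_, fun H => ?_, fun T y hy hT => cutOut_small T y hy hT,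
    fun a 𝒵 h𝒵 κ hκ => conv_count 𝒵 h𝒵 κ hκ, fun a => conv_proj a, fun a b => conv_segre a b⟩
  · obtain ⟨C, c, hC⟩ := failsMap (n := n) hm S α hα e d 𝒴 hprim w hw γ c₁ hγ θ hθ1 hθ ε hε
    exact ⟨C, c, fun H T hH hHT => hC H T (hH.trans hHT) hHT⟩
  · rw [total2, Fin.sum_univ_two, two_mul ((n + d).choose n)]
    rfl

end Pool.Agent.Results.MP_4d5ce1_nt.AllValuesOfAlmostAllMaps
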