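import Pool.Agent.Q272.LP.L

/-!
# Joint limit points of the truncated counting functions on the projective line

`K` is a number field, `S` a finite set of primes of `K` and `D = {a 0, …, a m, ∞}` a set of
`q = m + 2` points of the projective line over `K`. For `t ∈ K` let `N⁽¹⁾(α, t)` be the sum of the
truncated local heights of `t` with respect to `α` outside `S`. Question Q1 for `K, S, D` says
`liminf Σ N⁽¹⁾(α, t) / h(t) ≥ q - 2 = m` as `h(t) → ∞`.

We study ALL the limit points: of the vector `(N⁽¹⁾(α, t) / h(t))_{α ∈ D}` in `[0, 1]^q`, and of its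
sum.
-/

set_option autoImplicit false

open NumberField

namespace Pool.Agent.Results.MP_4d5ce1_nt.JointLimitPoints

variable {K : Type} [Field K] [NumberField K]

/-- the absolute logarithmic height of the point `[t : 1]` -/
noncomputable def h (t : K) : ℝ := Height.logHeight₁ t / Module.finrank ℚ K

/-- The points `[t : 1]` and `[a : 1]` coincide modulo the prime of `v`, that is, the local height
`λ_v(a, t)` is positive. -/
def Meets (v : FinitePlace K) (a t : K) : Prop := v (t - a) < max (v t) 1 * max (v a) 1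

/-- The truncated counting function of the point `a`: the sum over the primes outside `S` of the
truncated local heights `λ⁽¹⁾_v(a, t)`; each prime at which `t` meets `a` counts
`log N(𝔭) / [K : ℚ]`. -/
noncomputable def Np (S : Finset (FinitePlace K)) (a t : K) : ℝ :=
  (∑ᶠ v ∈ {v : FinitePlace K | v ∉ S ∧ Meets v a t},
      Real.log ((Ideal.absNorm v.maximalIdeal.asIdeal : ℕ) : ℝ)) / Module.finrank ℚ K

/-- The truncated counting function of the point `∞` (`t` meets `∞` if `1 < v t`). -/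
noncomputable def Ninf (S : Finset (FinitePlace K)) (t : K) : ℝ :=
  (∑ᶠ v ∈ {v : FinitePlace K | v ∉ S ∧ 1 < v t},
      Real.log ((Ideal.absNorm v.maximalIdeal.asIdeal : ℕ) : ℝ)) / Module.finrank ℚ K

/-- The truncated counting function of the `r + 1` points `a i` and `∞`. -/
noncomputable def N1 (S : Finset (FinitePlace K)) {r : ℕ} (a : Fin r → K) (t : K) : ℝ :=
  (∑ i, Np S (a i) t) + Ninf S t

/-- `s` is a limit of `N1 / h` along a sequence of points with height tending to infinity. -/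
def IsLimit (S : Finset (FinitePlace K)) {r : ℕ} (a : Fin r → K) (s : ℝ) : Prop :=
  ∀ η : ℝ, 0 < η → ∀ H : ℝ, ∃ t : K, (∀ i, t ≠ a i) ∧ H < h t ∧ |N1 S a t / h t - s| < η

/-- `(θ, τ)` is a limit of the vectors `(Np (a i) / h, Ninf / h)` along a sequence of points with
height tending to infinity. -/
def IsJointLimit (S : Finset (FinitePlace K)) {r : ℕ} (a : Fin r → K) (θ : Fin r → ℝ) (τ : ℝ) :
    Prop :=
  ∀ η : ℝ, 0 < η → ∀ H : ℝ, ∃ t : K, (∀ i, t ≠ a i) ∧ H < h t ∧
    (∀ i, |Np S (a i) t / h t - θ i| < η) ∧ |Ninf S t / h t - τ| < η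

/-- The inequality of Q1 for the given `K`, `S` and the `q = m + 2` points `a 0, …, a m, ∞`. -/
def Q1 (S : Finset (FinitePlace K)) {m : ℕ} (a : Fin (m + 1) → K) : Prop :=
  ∀ ε : ℝ, 0 < ε → ∃ C : ℝ, ∀ t : K, (∀ i, t ≠ a i) →
    (((m + 2 : ℕ) : ℝ) - 2 - ε) * h t ≤ N1 S a t + C

/-! ### Comparison with the library -/

theorem sum_eq (T : Set (FinitePlace K)) :
    (∑ᶠ v ∈ T, Real.log ((Ideal.absNorm v.maximalIdeal.asIdeal : ℕ) : ℝ)) =
      Real.log (Q265.NF.PP T) := by
  unfold Q265.NF.PP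
  rw [Real.log_finprod (fun v => lt_of_lt_of_le one_pos (Q241.AK.one_le_pr _ v))]
  refine finsum_congr fun v => ?_
  classical
  rw [finsum_eq_if]
  unfold Q241.AK.pr Q241.AK.N
  by_cases hv : v ∈ T
  · rw [if_pos hv, if_pos hv]
  · rw [if_neg hv, if_neg hv, Real.log_one]

theorem Np_eq (S : Finset (FinitePlace K)) (a t : K) :
    Np S a t = Real.log (Q265.NF.PP (Q265.BM.Ms S a t)) / Module.finrank ℚ K := by
  unfold Np
  rw [sum_eq]
  rfl

theorem Ninf_eq (S : Finset (FinitePlace K)) (t : K) :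
    Ninf S t = Real.log (Q265.NF.PP (Q265.BM.Mi S t)) / Module.finrank ℚ K := by
  unfold Ninf
  rw [sum_eq]
  rfl

theorem N1_eq (S : Finset (FinitePlace K)) {r : ℕ} (a : Fin r → K) (t : K) :
    N1 S a t = Q265.BM.Cn S a t / Module.finrank ℚ K := by
  unfold N1 Q265.BM.Cn
  rw [add_div, Finset.sum_div, Ninf_eq]
  congr 1
  exact Finset.sum_congr rfl fun i _ => Np_eq S (a i) t

theorem ratio (x t : ℝ) (d : ℝ) (hd : 0 < d) : x / d / (t / d) = x / t := by
  rw [div_div_div_cancel_right₀ hd.ne']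

theorem limit_iff (S : Finset (FinitePlace K)) {r : ℕ} (a : Fin r → K) (s : ℝ) :
    IsLimit S a s ↔ Pool.Agent.Q272.LP.LL S a s := by
  have hd : (0 : ℝ) < Module.finrank ℚ K := by exact_mod_cast Module.finrank_pos
  constructor
  · intro H η hη B
    obtain ⟨t, h1, h2, h3⟩ := H η hη (max B 0 / Module.finrank ℚ K)
    unfold h at h2 h3
    rw [div_lt_div_iff_of_pos_right hd] at h2
    rw [N1_eq, ratio _ _ _ hd] at h3
    have h4 : 0 < Height.logHeight₁ t := lt_of_le_of_lt (le_max_right _ _) h2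
    refine ⟨t, h1, lt_of_le_of_lt (le_max_left _ _) h2, ?_⟩
    have e : Q265.BM.Cn S a t - s * Height.logHeight₁ t =
        (Q265.BM.Cn S a t / Height.logHeight₁ t - s) * Height.logHeight₁ t := by
      field_simp
    rw [e, abs_mul, abs_of_pos h4]
    exact mul_le_mul_of_nonneg_right h3.le h4.le
  · intro H η hη B
    obtain ⟨t, h1, h2, h3⟩ := H (η / 2) (by linarith) (max (B * Module.finrank ℚ K) 0)
    have h4 : 0 < Height.logHeight₁ t := lt_of_le_of_lt (le_max_right _ _) h2
    refine ⟨t, h1, ?_, ?_⟩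
    · unfold h
      rw [lt_div_iff₀ hd]
      exact lt_of_le_of_lt (le_max_left _ _) h2
    · unfold h
      rw [N1_eq, ratio _ _ _ hd]
      have e : Q265.BM.Cn S a t / Height.logHeight₁ t - s =
          (Q265.BM.Cn S a t - s * Height.logHeight₁ t) / Height.logHeight₁ t := by
        field_simp
      rw [e, abs_div, abs_of_pos h4, div_lt_iff₀ h4]
      have h5 : 0 < η / 2 * Height.logHeight₁ t := by positivity
      linarith

theorem joint_of (S : Finset (FinitePlace K)) {r : ℕ} (a : Fin r → K) (θ : Fin r → ℝ) (τ : ℝ)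
    (H : Pool.Agent.Q272.LP.JL S a θ τ) : IsJointLimit S a θ τ := by
  have hd : (0 : ℝ) < Module.finrank ℚ K := by exact_mod_cast Module.finrank_pos
  intro η hη B
  obtain ⟨t, h1, h2, h3, h3'⟩ := H (η / 2) (by linarith) (max (B * Module.finrank ℚ K) 0)
  have h4 : 0 < Height.logHeight₁ t := lt_of_le_of_lt (le_max_right _ _) h2
  have gen : ∀ L s : ℝ, |L - s * Height.logHeight₁ t| ≤ η / 2 * Height.logHeight₁ t →
      |L / Height.logHeight₁ t - s| < η := by
    intro L s h5
    have e : L / Height.logHeight₁ t - s =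
        (L - s * Height.logHeight₁ t) / Height.logHeight₁ t := by
      field_simp
    rw [e, abs_div, abs_of_pos h4, div_lt_iff₀ h4]
    have h6 : 0 < η / 2 * Height.logHeight₁ t := by positivity
    linarith
  refine ⟨t, h1, ?_, fun i => ?_, ?_⟩
  · unfold h
    rw [lt_div_iff₀ hd]
    exact lt_of_le_of_lt (le_max_left _ _) h2
  · unfold h
    rw [Np_eq, ratio _ _ _ hd]
    exact gen _ _ (h3 i)
  · unfold h
    rw [Ninf_eq, ratio _ _ _ hd]
    exact gen _ _ h3'

theorem q1_of (S : Finset (FinitePlace K)) {m : ℕ} (a : Fin (m + 1) → K) :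
    Q1 S a ↔ ∀ s, IsLimit S a s → (m : ℝ) ≤ s := by
  have hd : (0 : ℝ) < Module.finrank ℚ K := by exact_mod_cast Module.finrank_pos
  simp_rw [limit_iff]
  rw [← Pool.Agent.Q272.LP.q1_iff S a m (Nat.cast_nonneg m)]
  have e : ∀ (ε : ℝ) (t : K), (((m + 2 : ℕ) : ℝ) - 2 - ε) * h t =
      (((m : ℝ) - ε) * Height.logHeight₁ t) / Module.finrank ℚ K := by
    intro ε t
    unfold h
    push_cast
    ring
  constructor
  · intro H ε hε
    obtain ⟨C, hC⟩ := H ε hε
    refine ⟨Module.finrank ℚ K * C, fun t ht => ?_⟩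
    have h2 := hC t ht
    rw [e, N1_eq, div_le_iff₀ hd] at h2
    have e2 : (Q265.BM.Cn S a t / Module.finrank ℚ K + C) * Module.finrank ℚ K =
        Q265.BM.Cn S a t + Module.finrank ℚ K * C := by
      field_simp
    rwa [e2] at h2
  · intro H ε hε
    obtain ⟨C, hC⟩ := H ε hε
    refine ⟨C / Module.finrank ℚ K, fun t ht => ?_⟩
    have h2 := hC t ht
    rw [e, N1_eq, ← add_div]
    gcongr

/-- the union of the intervals -/
theorem union {m n : ℕ} (hn : 1 ≤ n) (P : ℝ → Prop)
    (H : ∀ n', 1 ≤ n' → n' ≤ n → ∀ s : ℝ, m + m / (2 * n' * m + 1) ≤ s → s ≤ m + 2 / n' → P s)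
    (s : ℝ) (h1 : m + m / (2 * n * m + 1) ≤ s) (h2 : s ≤ m + 2) : P s := by
  induction n, hn using Nat.le_induction with
  | base =>
    refine H 1 le_rfl le_rfl s ?_ ?_
    · exact h1
    · norm_num
      exact h2
  | succ k hk ih =>
    have hk0 : (0 : ℝ) < k := by exact_mod_cast hk
    have hm0 : (0 : ℝ) ≤ m := Nat.cast_nonneg m
    by_cases h3 : (m : ℝ) + m / (2 * k * m + 1) ≤ s
    · exact ih (fun n' g1 g2 => H n' g1 (by omega)) h3
    · push Not at h3
      refine H (k + 1) (by omega) le_rfl s h1 ?_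
      have h4 : (m : ℝ) / (2 * k * m + 1) ≤ 2 / ((k + 1 : ℕ) : ℝ) := by
        push_cast
        rw [div_le_div_iff₀ (by positivity) (by positivity)]
        have : (1 : ℝ) ≤ k := by exact_mod_cast hk
        nlinarith
      linarith

/-- **Joint limit points on the projective line.** Let `a 0, …, a m` be distinct elements of the
number field `K` and let `S` be a finite set of primes; `q = m + 2` counts `∞`.

(1) Every limit point of `N1 / h` lies in `[0, q]`, and Q1 holds for `K, S, a` if and only if every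
limit point is at least `q - 2 = m`.

(2) Every vector of `[0, 1] ^ q` for which one entry may be removed such that the sum of the other
entries is at least `q - 2` plus half of each of them is a joint limit point (the removed entry
belongs to `∞` in the first part and to `a k` in the second part).

(3) Every `s` in `[m + m / (2 n m + 1), m + 2]` is a limit point of `N1 / h` if `K` contains `n'`
different `n'`-th roots of every `a i - a 0 ≠ 0`, for all `n' ≤ n`. For `n = 1` this is no
condition.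

(4) For every `ε > 0` there is a finite extension `L` of `K` such that for all finite sets `S` of
primes of `L` every `s` in `[q - 2 + ε, q]` is a limit point of `N1 / h` over `L`. -/
theorem result (K : Type) [Field K] [NumberField K] (m : ℕ) (a : Fin (m + 1) → K)
    (ha : Function.Injective a) :
    (∀ S : Finset (FinitePlace K),
      (∀ s, IsLimit S a s → 0 ≤ s ∧ s ≤ m + 2) ∧ (Q1 S a ↔ ∀ s, IsLimit S a s → (m : ℝ) ≤ s)) ∧
    (∀ (S : Finset (FinitePlace K)) (θ : Fin (m + 1) → ℝ) (τ : ℝ),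
      (∀ j, 0 ≤ θ j ∧ θ j ≤ 1) → 0 ≤ τ ∧ τ ≤ 1 →
      ((∀ j, m + θ j / 2 ≤ ∑ i, θ i) → IsJointLimit S a θ τ) ∧
      (∀ k, m + τ / 2 ≤ τ + ∑ i ∈ Finset.univ.erase k, θ i →
        (∀ j, j ≠ k → m + θ j / 2 ≤ τ + ∑ i ∈ Finset.univ.erase k, θ i) →
        IsJointLimit S a θ τ)) ∧
    (∀ (S : Finset (FinitePlace K)) (n : ℕ), 1 ≤ n →
      (∀ n', 1 ≤ n' → n' ≤ n → ∀ i, a i ≠ a 0 →
        ∃ β : Fin n' → K, Function.Injective β ∧ ∀ k, β k ^ n' = a i - a 0) →
      ∀ s : ℝ, m + m / (2 * n * m + 1) ≤ s → s ≤ m + 2 → IsLimit S a s) ∧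
    (∀ S : Finset (FinitePlace K), ∀ s : ℝ, m + m / (2 * m + 1) ≤ s → s ≤ m + 2 →
      IsLimit S a s) ∧
    (∀ ε : ℝ, 0 < ε → ∃ (L : Type) (_ : Field L) (_ : NumberField L) (_ : Algebra K L),
      ∀ S : Finset (FinitePlace L), ∀ s : ℝ, m + ε ≤ s → s ≤ m + 2 →
        IsLimit S (fun i => algebraMap K L (a i)) s) := by
  have hm0 : (0 : ℝ) ≤ m := Nat.cast_nonneg m
  have part3 : ∀ (K : Type) [Field K] [NumberField K] (a : Fin (m + 1) → K),
      Function.Injective a → ∀ (S : Finset (FinitePlace K)) (n : ℕ), 1 ≤ n →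
      (∀ n', 1 ≤ n' → n' ≤ n → ∀ i, a i ≠ a 0 →
        ∃ β : Fin n' → K, Function.Injective β ∧ ∀ k, β k ^ n' = a i - a 0) →
      ∀ s : ℝ, m + m / (2 * n * m + 1) ≤ s → s ≤ m + 2 → IsLimit S a s := by
    intro K _ _ a ha S n hn hroot s h1 h2
    refine union hn (fun s => IsLimit S a s) (fun n' g1 g2 s h3 h4 => ?_) s h1 h2
    rw [limit_iff]
    exact Pool.Agent.Q272.LP.power g1 a ha S (hroot n' g1 g2) s h3 h4
  refine ⟨fun S => ⟨fun s hs => ?_, q1_of S a⟩, fun S θ τ hθ hτ => ⟨fun H => ?_, fun k h1 h2 => ?_⟩,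
    part3 K a ha, fun S s h1 h2 => ?_, fun ε hε => ?_⟩
  · rw [limit_iff] at hs
    have := hs.bounds
    push_cast at this
    refine ⟨this.1, by linarith [this.2]⟩
  · refine joint_of S a θ τ (Pool.Agent.Q272.LP.joint (Nat.succ_pos m) a ha S θ τ hθ hτ fun j => ?_)
    push_cast
    have := H j
    linarith
  · refine joint_of S a θ τ (Pool.Agent.Q272.LP.joint' a ha S k θ τ hθ hτ ?_ fun j hj => ?_)
    · push_cast
      linarith
    · push_cast
      have := h2 j hj
      linarith
  · refine part3 K a ha S 1 le_rfl (fun n' g1 g2 i _ => ?_) s ?_ h2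
    · have : n' = 1 := by omega
      subst this
      refine ⟨fun _ => a i - a 0, fun x y _ => Subsingleton.elim x y, fun k => pow_one _⟩
    · push_cast
      rw [mul_one]
      exact h1
  · obtain ⟨n, hn⟩ := exists_nat_gt (1 / ε)
    have hn0 : (0 : ℝ) < n := lt_trans (by positivity) hn
    have hn1 : 1 ≤ n := by
      have : 0 < n := by exact_mod_cast hn0
      omega
    obtain ⟨L, iF, iN, iA, hL⟩ := Pool.Agent.Q272.LP.exists_ext K n
      (fun i : Fin m => a i.succ - a 0)
      (fun i => sub_ne_zero.2 fun h => Fin.succ_ne_zero i (ha h))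
    refine ⟨L, iF, iN, iA, fun S s h1 h2 => ?_⟩
    refine part3 L (fun i => algebraMap K L (a i))
      (fun i j hij => ha ((algebraMap K L).injective hij)) S n hn1 ?_ s ?_ h2
    · intro n' g1 g2 i hi
      refine Fin.cases (fun hi => absurd rfl hi) (fun i _ => ?_) i hi
      obtain ⟨β, hβ1, hβ2⟩ := hL i n' g1 g2
      refine ⟨β, hβ1, fun k => ?_⟩
      rw [hβ2 k, map_sub]
    · have h3 : (m : ℝ) / (2 * n * m + 1) ≤ ε := by
        rw [div_le_iff₀ (by positivity)]
        have h4 : 1 < n * ε := by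
          rw [div_lt_iff₀ hε] at hn
          linarith
        nlinarith
      linarith

end Pool.Agent.Results.MP_4d5ce1_nt.JointLimitPoints
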