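import Pool.Agent.Q273.MV.P9
import Pool.Agent.Q273.MV.P10
import Pool.Agent.Q61.MV.Ubi
import Pool.Agent.Q198.MV.Cantor
import Pool.Agent.Q198.MV.Dens
import Pool.Agent.Q2.MV.Low

/-!
# The metric theory of Vojta's inequality with truncated counting functions on the projective line

`K` is a number field. For almost every target `ξ ∈ K ⊗ ℝ`, all points and all finite sets of
primes: the inequality of Q1 at the approximations of `ξ`, the stronger inequality with `ξ` as an
additional target, and the exact set of the limit points of the proximity and the counting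
functions divided by the height; and the exact Hausdorff dimension of the sets of the targets which
are approximated to a given order by points with given truncated counting functions.
-/

set_option autoImplicit false

namespace Pool.Agent.Results.MP_4d5ce1_nt.MetricVojtaLaw

open MeasureTheory NumberField NumberField.mixedEmbedding IsDedekindDomain
open Pool.Agent.Results.MP_4d5ce1_nt.ExceptionalSetExponents (height counting)

variable {K : Type} [Field K] [NumberField K] {q : ℕ}

/-- the proximity function of the target `ξ ∈ K ⊗ ℝ`: the sum over the archimedean places `w` of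
`[K_w : ℝ] / [K : ℚ]` times `log max (1, 1 / |ξ_w - x|_w)` -/
noncomputable def proximity (ξ : mixedSpace K) (x : K) : ℝ :=
  (∑ w : InfinitePlace K, (w.mult : ℝ) *
    Real.log (max 1 (normAtPlace w (ξ - mixedEmbedding K x))⁻¹)) / (Module.finrank ℚ K : ℝ)

/-- the range of the theorem: `κ(2) = 2`, `κ(3) = 1`, `κ(q) = 6/7` for `q ≥ 4` -/
noncomputable def kappa (q : ℕ) : ℝ := if q = 2 then 2 else if q = 3 then 1 else 6 / 7

/-- the exponent `e(q)` -/
noncomputable def exponent (q : ℕ) : ℝ :=
  if q = 3 then 80 / 133 else if q = 4 then 18 / 23 else if q = 5 ∨ q = 6 then 1 else 8 / 7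

/-- `[x : 1]` is none of the points `[(α l).1 : (α l).2]` -/
def Off (α : Fin q → K × K) (x : K) : Prop := ∀ l, x * (α l).2 - 1 * (α l).1 ≠ 0

/-- pairwise distinct points of the projective line, by coordinates -/
def Distinct (α : Fin q → K × K) : Prop :=
  (∀ i, α i ≠ 0) ∧ ∀ i j, i ≠ j → (α i).1 * (α j).2 - (α i).2 * (α j).1 ≠ 0

/-- `(τ, θ)` is a limit point, for `h(x) → ∞`, of `(m_ξ(x) / h(x), (N(α_l, x) / h(x))_l)`, where
`N(α_l, x)` is the truncated counting function of the point `α_l` -/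
def IsLimit (ξ : mixedSpace K) (T : Set (HeightOneSpectrum (𝓞 K))) (α : Fin q → K × K)
    (τ : ℝ) (θ : Fin q → ℝ) : Prop :=
  ∀ ε : ℝ, 0 < ε → ∀ B : ℝ, ∃ x : K, Off α x ∧ B ≤ height x ∧
    |proximity ξ x - τ * height x| ≤ ε * height x ∧
    ∀ l, |counting T (fun _ : Fin 1 => α l) x - θ l * height x| ≤ ε * height x

open scoped Classical in
/-- the targets with approximations of order `τ`, of unbounded height, at which the truncated
counting functions of the points are at most `(θ_l + o(1)) h(x)` -/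
def Approximable (T : Set (HeightOneSpectrum (𝓞 K))) (α : Fin q → K × K) (τ : ℝ)
    (θ : Fin q → ℝ) : Set (mixedSpace K) :=
  {ξ | ∀ ε : ℝ, 0 < ε → ∀ B : ℝ, ∃ x : K, Off α x ∧ B ≤ height x ∧
    ‖ξ - mixedEmbedding K x‖ ≤ Real.exp (-((τ - ε) * height x)) ∧
    ∀ l, counting T (fun _ : Fin 1 => α l) x ≤ (θ l + ε) * height x}

open Q273.MV in
private lemma prox_eq (ξ : mixedSpace K) (x : K) :
    prox (n := 1) (fun _ => ξ) (fun _ => x) = (Module.finrank ℚ K : ℝ) * proximity ξ x := by
  unfold proximity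
  rw [prox_one, mul_div_cancel₀ _ (finrank_posR K).ne']

open Q273.MV in
private lemma isLimit_iff (ξ : mixedSpace K) (T : Set (HeightOneSpectrum (𝓞 K)))
    (α : Fin q → K × K) (τ : ℝ) (θ : Fin q → ℝ) :
    IsLimit ξ T α τ θ ↔ Lim ξ T α τ (fun l => 1 - θ l) := by
  have hd := finrank_posR K
  have hd1 : (1 : ℝ) ≤ (Module.finrank ℚ K : ℝ) := by
    have : 0 < Module.finrank ℚ K := Module.finrank_pos
    exact_mod_cast this
  have e1 : ∀ x : K, ∀ ε : ℝ, |proximity ξ x - τ * height x| ≤ ε * height x ↔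
      |prox (n := 1) (fun _ => ξ) (fun _ => x) - τ * hh x| ≤ ε * hh x := by
    intro x ε
    rw [prox_eq, hh_eq]
    have e : (Module.finrank ℚ K : ℝ) * proximity ξ x - τ * ((Module.finrank ℚ K : ℝ) * height x) =
        (Module.finrank ℚ K : ℝ) * (proximity ξ x - τ * height x) := by ring
    rw [e, abs_mul, abs_of_pos hd, ← mul_le_mul_iff_right₀ hd]
    have e2 : (Module.finrank ℚ K : ℝ) * (ε * height x) =
        ε * ((Module.finrank ℚ K : ℝ) * height x) := by ring
    rw [e2]
  have e2 : ∀ x : K, ∀ ε : ℝ, ∀ l, |counting T (fun _ : Fin 1 => α l) x - θ l * height x| ≤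
      ε * height x ↔ |sI T (α l) x - (1 - θ l) * hh x| ≤ ε * hh x := by
    intro x ε l
    unfold sI
    rw [hh_eq]
    have e : (Module.finrank ℚ K : ℝ) * height x -
        (Module.finrank ℚ K : ℝ) * counting T (fun _ : Fin 1 => α l) x -
        (1 - θ l) * ((Module.finrank ℚ K : ℝ) * height x) =
        -((Module.finrank ℚ K : ℝ) * (counting T (fun _ : Fin 1 => α l) x - θ l * height x)) := by
      ring
    rw [e, abs_neg, abs_mul, abs_of_pos hd, ← mul_le_mul_iff_right₀ hd]
    have e3 : (Module.finrank ℚ K : ℝ) * (ε * height x) =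
        ε * ((Module.finrank ℚ K : ℝ) * height x) := by ring
    rw [e3]
  constructor
  · intro h ε hε B
    obtain ⟨x, h1, h2, h3, h4⟩ := h ε hε (max B 0)
    have hB0 : 0 ≤ height x := (le_max_right _ _).trans h2
    refine ⟨x, h1, ?_, (e1 x ε).1 h3, fun l => (e2 x ε l).1 (h4 l)⟩
    rw [hh_eq]
    have := (le_max_left B 0).trans h2
    nlinarith
  · intro h ε hε B
    obtain ⟨x, h1, h2, h3, h4⟩ := h ε hε ((Module.finrank ℚ K : ℝ) * B)
    refine ⟨x, h1, ?_, (e1 x ε).2 h3, fun l => (e2 x ε l).2 (h4 l)⟩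
    rw [hh_eq] at h2
    exact le_of_mul_le_mul_left h2 hd

open scoped Classical in
open Q273.MV in
private lemma approximable_eq (T : Set (HeightOneSpectrum (𝓞 K)))
    (α : Fin q → K × K) (τ : ℝ) (θ : Fin q → ℝ) :
    Approximable T α τ θ = WW T α (τ / (Module.finrank ℚ K : ℝ)) (fun l => 1 - θ l) := by
  have hd := finrank_posR K
  have hd1 : (1 : ℝ) ≤ (Module.finrank ℚ K : ℝ) := by
    have : 0 < Module.finrank ℚ K := Module.finrank_pos
    exact_mod_cast this
  have hcnt : ∀ (x : K) (ε : ℝ) (l : Fin q),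
      counting T (fun _ : Fin 1 => α l) x ≤ (θ l + ε) * height x ↔
        (1 - θ l - ε) * hh x ≤ sI T (α l) x := by
    intro x ε l
    unfold sI
    rw [hh_eq, ← mul_le_mul_iff_right₀ hd]
    constructor
    · intro h
      linarith
    · intro h
      linarith
  ext ξ
  constructor
  · intro h ε hε B
    obtain ⟨x, h1, h2, h3, h4⟩ := h ε hε (max B 0)
    have hB0 : 0 ≤ height x := (le_max_right _ _).trans h2
    refine ⟨x, h1, ?_, h3.trans (Real.exp_le_exp.2 ?_), fun l => (hcnt x ε l).1 (h4 l)⟩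
    · rw [hh_eq]
      have := (le_max_left B 0).trans h2
      nlinarith
    · rw [hh_eq]
      have e : (τ / (Module.finrank ℚ K : ℝ) - ε) * ((Module.finrank ℚ K : ℝ) * height x) =
          (τ - (Module.finrank ℚ K : ℝ) * ε) * height x := by
        field_simp
      rw [e]
      have : ε * height x ≤ (Module.finrank ℚ K : ℝ) * ε * height x := by
        have := mul_nonneg hε.le hB0
        nlinarith
      linarith
  · intro h ε hε B
    obtain ⟨x, h1, h2, h3, h4⟩ := h (ε / (Module.finrank ℚ K : ℝ)) (by positivity)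
      ((Module.finrank ℚ K : ℝ) * B)
    have hh0 : 0 ≤ hh x := hh_nonneg x
    refine ⟨x, h1, ?_, h3.trans (le_of_eq ?_), fun l => (hcnt x ε l).2 ((mul_le_mul_of_nonneg_right
      ?_ hh0).trans (h4 l))⟩
    · rw [hh_eq] at h2
      exact le_of_mul_le_mul_left h2 hd
    · congr 1
      rw [hh_eq]
      field_simp
    · have h5 : ε / (Module.finrank ℚ K : ℝ) ≤ ε := div_le_self hε.le hd1
      linarith

open scoped Classical in
/-- **The metric theory of Vojta's inequality on the projective line.** Let `K` be a number field of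
degree `d`. For almost every target `ξ ∈ K ⊗ ℝ`, for all `q ≥ 2`, all pairwise distinct points
`α_1, …, α_q` of the line over `K` and every finite set of primes:

1. all but finitely many `x` with `m_ξ(x) ≥ (e(q) + ε) h(x)` satisfy
   `(q - 2) h(x) + c ≤ ∑_l N(α_l, x)`, for all `c` and all `ε > 0` (`q ≥ 3`);
2. `(q - 2) h(x) + m_ξ(x) ≤ ∑_l N(α_l, x) + ε h(x) + C` for all `x` with
   `∑_l N(α_l, x) ≥ (q - κ(q)) h(x)` or `m_ξ(x) ≥ (2 - κ(q) + ε) h(x)`;
3. for `∑ (1 - θ_l) ≤ κ(q)` or `τ > 2 - κ(q)`, the vector `(τ, θ)` is a limit point of the vector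
   `(m_ξ(x), N(α_1, x), …, N(α_q, x)) / h(x)` if and only if `τ ≥ 0`, `0 ≤ θ_l ≤ 1` and
   `τ + ∑ (1 - θ_l) ≤ 2`.

The set of the targets with approximations `x` of order `τ` and `N(α_l, x) ≤ (θ_l + o(1)) h(x)` has
Hausdorff dimension `d min(1, (2 - ∑ (1 - θ_l)) / τ)`, if `∑ (1 - θ_l) ≤ κ(q)`. -/
theorem result (K : Type) [Field K] [NumberField K] :
    (∀ᵐ ξ : mixedSpace K, ∀ (q : ℕ) (α : Fin q → K × K), 2 ≤ q → Distinct α →
      ∀ T : Set (HeightOneSpectrum (𝓞 K)), T.Finite →
        (3 ≤ q → ∀ c ε : ℝ, 0 < ε →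
          {x : K | Off α x ∧ (exponent q + ε) * height x ≤ proximity ξ x ∧
            counting T α x < ((q : ℝ) - 2) * height x + c}.Finite) ∧
        (∀ ε : ℝ, 0 < ε → ∃ C : ℝ, ∀ x : K, Off α x →
          (((q : ℝ) - kappa q) * height x ≤ counting T α x ∨
            (2 - kappa q + ε) * height x ≤ proximity ξ x) →
          ((q : ℝ) - 2) * height x + proximity ξ x ≤ counting T α x + ε * height x + C) ∧
        ∀ (τ : ℝ) (θ : Fin q → ℝ), (∑ l, (1 - θ l) ≤ kappa q ∨ 2 - kappa q < τ) →
          (IsLimit ξ T α τ θ ↔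
            0 ≤ τ ∧ (∀ l, 0 ≤ θ l ∧ θ l ≤ 1) ∧ τ + ∑ l, (1 - θ l) ≤ 2)) ∧
    ∀ (q : ℕ) (α : Fin q → K × K), 2 ≤ q → Distinct α →
      ∀ T : Set (HeightOneSpectrum (𝓞 K)), T.Finite → ∀ (τ : ℝ) (θ : Fin q → ℝ), 0 < τ →
        (∀ l, 0 ≤ θ l ∧ θ l ≤ 1) → ∑ l, (1 - θ l) ≤ kappa q →
        dimH (Approximable T α τ θ) = ENNReal.ofReal
          (min 1 ((2 - ∑ l, (1 - θ l)) / τ) * (Module.finrank ℚ K : ℝ)) := by
  have hd := Q273.MV.finrank_posR K
  have hd1 : (1 : ℝ) ≤ (Module.finrank ℚ K : ℝ) := by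
    have : 0 < Module.finrank ℚ K := Module.finrank_pos
    exact_mod_cast this
  constructor
  · filter_upwards [Q273.MV.ae_transfer (K := K) Q273.MV.lawE,
      Q273.MV.ae_transfer (K := K) Q273.MV.lawP, Q273.MV.limits (K := K) Pool.Agent.Q2.MV.low Pool.Agent.Q198.MV.dens]
      with ξ hE hP hL
    intro q α hq hα T hT
    refine ⟨fun hq3 c ε hε => ?_, fun ε hε => ?_, fun τ θ hreg => ?_⟩
    · refine (hE q hq3 α hα T hT c ε hε).subset ?_
      rintro x ⟨h1, h2, h3⟩
      refine ⟨h1, ?_, h3⟩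
      rw [prox_eq, Q273.MV.hh_eq]
      have h4 := mul_le_mul_of_nonneg_left h2 hd.le
      have e : Q273.MV.expo q = exponent q := rfl
      rw [e]
      linarith
    · obtain ⟨C, hC⟩ := hP q hq α hα T hT ε hε
      refine ⟨C / (Module.finrank ℚ K : ℝ), fun x hx hle => ?_⟩
      have e : Q273.MV.kap q = kappa q := rfl
      have h1 := hC x hx (by
        rw [e]
        rcases hle with h | h
        · left
          rw [Q273.MV.sum_sI T hα.1 hx, Q273.MV.hh_eq]
          have h2 := mul_le_mul_of_nonneg_left h hd.le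
          linarith
        · right
          rw [prox_eq, Q273.MV.hh_eq]
          have h2 := mul_le_mul_of_nonneg_left h hd.le
          linarith)
      rw [Q273.MV.sum_sI T hα.1 hx, prox_eq, Q273.MV.hh_eq] at h1
      refine le_of_mul_le_mul_left (a := (Module.finrank ℚ K : ℝ)) ?_ hd
      have e2 : (Module.finrank ℚ K : ℝ) * (counting T α x + ε * height x +
          C / (Module.finrank ℚ K : ℝ)) = (Module.finrank ℚ K : ℝ) * counting T α x +
          (Module.finrank ℚ K : ℝ) * (ε * height x) + C := by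
        field_simp
      rw [e2]
      linarith
    · rw [isLimit_iff]
      have e : Q273.MV.kap q = kappa q := rfl
      constructor
      · intro h
        obtain ⟨h1, h2⟩ := h.basic hT hα
        refine ⟨h1, fun l => ⟨by linarith [(h2 l).2], by linarith [(h2 l).1]⟩, ?_⟩
        refine h.sum_le (hP q hq α hα T hT) ?_
        rw [e]
        exact hreg
      · rintro ⟨h1, h2, h3⟩
        refine hL q hq α hα T hT τ _ h1 (fun l => by linarith [(h2 l).2])
          (fun l => by linarith [(h2 l).1]) ?_ h3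
        rw [e]
        rcases hreg with h4 | h4
        · exact h4
        · linarith
  · intro q α hq hα T hT τ θ hτ hθ hκ
    set Δ : ℝ := ∑ l, (1 - θ l) with hΔ
    have hΔ2 : Δ ≤ 2 := hκ.trans (Q273.MV.kap_le_two q)
    have hδ0 : ∀ l, 0 ≤ 1 - θ l := fun l => by linarith [(hθ l).2]
    have hδ1 : ∀ l, 1 - θ l ≤ 1 := fun l => by linarith [(hθ l).1]
    have hΔ0 : 0 ≤ Δ := Finset.sum_nonneg fun l _ => hδ0 l
    have hubi := Pool.Agent.Q61.MV.ubi Pool.Agent.Q198.MV.cantor
    -- the trivial upper bound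
    have htriv : ∀ S : Set (mixedSpace K), dimH S ≤ ENNReal.ofReal (Module.finrank ℚ K : ℝ) := by
      intro S
      refine (dimH_mono (Set.subset_univ S)).trans (le_of_eq ?_)
      rw [Real.dimH_univ_eq_finrank, mixedEmbedding.finrank K, ENNReal.ofReal_natCast]
    have hkey : ∀ τ : ℝ, 0 < τ → 2 - Δ ≤ τ →
        dimH (Approximable T α τ θ) =
          ENNReal.ofReal ((2 - Δ) / τ * (Module.finrank ℚ K : ℝ)) := by
      intro τ hτ hτ2
      have hτd : 0 < τ / (Module.finrank ℚ K : ℝ) := by positivity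
      have e : (2 - Δ) / (τ / (Module.finrank ℚ K : ℝ)) =
          (2 - Δ) / τ * (Module.finrank ℚ K : ℝ) := by
        field_simp
      rw [approximable_eq, ← e]
      refine le_antisymm (Q273.MV.dim_up hq hT hα hτd hκ)
        (Q273.MV.dim_low Pool.Agent.Q2.MV.low hubi hq hT hα hδ0 hδ1 hκ hτd ?_)
      rw [div_mul_cancel₀ _ hd.ne']
      exact hτ2
    rcases le_or_gt (2 - Δ) τ with h | h
    · rw [min_eq_right ((div_le_one hτ).2 h)]
      exact hkey τ hτ h
    · rw [min_eq_left ((one_le_div hτ).2 h.le), one_mul]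
      refine le_antisymm (htriv _) ?_
      have h2 := hkey (2 - Δ) (hτ.trans h) le_rfl
      rw [div_self (hτ.trans h).ne', one_mul] at h2
      rw [← h2]
      refine dimH_mono fun ξ hξ => ?_
      intro ε hε B
      obtain ⟨x, h3, h4, h5, h6⟩ := hξ ε hε (max B 0)
      have h7 : 0 ≤ height x := (le_max_right _ _).trans h4
      refine ⟨x, h3, (le_max_left _ _).trans h4, h5.trans (Real.exp_le_exp.2 ?_), h6⟩
      have h8 : (τ - ε) * height x ≤ (2 - Δ - ε) * height x :=
        mul_le_mul_of_nonneg_right (by linarith) h7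
      linarith

end Pool.Agent.Results.MP_4d5ce1_nt.MetricVojtaLaw
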