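import Mathlib
import Pool.Agent.Q103.SD.Many

/-!
# The inequality for finite subsets of the projective line at points composed of sparse bases

`t` is a large power of a prime `p`; the bases are numbers with small digits (of either sign) in base
`t` whose first and last digits are `1` or `-1`; the point is `x = ∏ q_i ^ b_i / ∏ q_i ^ c_i`, with
arbitrary exponents, and the finite set consists of `0`, `∞` and `r_j / s_j`, `j < k`.
-/

set_option autoImplicit false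

namespace Pool.Agent.Results.MP_4d5ce1_nt.SparsePoints

open Polynomial Finset

/-- The product of the distinct primes dividing `n`. -/
def rad (n : ℤ) : ℕ := ∏ p ∈ n.natAbs.primeFactors, p

/-- The set of the bases that occur in one of the two products. -/
def used {n : ℕ} (b c : Fin n → ℕ) : Finset (Fin n) :=
  Finset.univ.filter (fun i => b i ≠ 0 ∨ c i ≠ 0)

/-- The bases `F_i(t)`, `i < n`, are the values at `t` of nonconstant polynomials with coefficients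
(digits) of absolute value at most `H` and first and last digit `1` or `-1`, of total degree at most
`K`. -/
structure Bases (K : ℕ) (H : ℝ) {n : ℕ} (F : Fin n → ℤ[X]) : Prop where
  pos : ∀ i, 0 < (F i).natDegree
  deg : ∑ i, (F i).natDegree ≤ K
  digits : ∀ i j, |((F i).coeff j : ℝ)| ≤ H
  last : ∀ i, (F i).coeff 0 = 1 ∨ (F i).coeff 0 = -1
  first : ∀ i, (F i).leadingCoeff = 1 ∨ (F i).leadingCoeff = -1

/-- The numbers `r_j / s_j` are distinct nonzero rational numbers of height at most `H`. -/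
structure Points (H : ℝ) {k : ℕ} (r s : Fin k → ℤ) : Prop where
  r_ne : ∀ j, r j ≠ 0
  s_ne : ∀ j, s j ≠ 0
  r_le : ∀ j, |(r j : ℝ)| ≤ H
  s_le : ∀ j, |(s j : ℝ)| ≤ H
  distinct : ∀ i j, i ≠ j → r i * s j ≠ r j * s i

theorem rad_one_le (x : ℤ) : 1 ≤ rad x :=
  Nat.pos_of_ne_zero (Finset.prod_ne_zero_iff.mpr fun _ hp => (Nat.prime_of_mem_primeFactors hp).ne_zero)

theorem rad_mul_le {x y : ℤ} (hx : x ≠ 0) (hy : y ≠ 0) : rad (x * y) ≤ rad x * rad y := by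
  unfold rad
  rw [Int.natAbs_mul, Nat.primeFactors_mul (Int.natAbs_ne_zero.mpr hx) (Int.natAbs_ne_zero.mpr hy)]
  have h := Finset.prod_union_inter (s₁ := x.natAbs.primeFactors) (s₂ := y.natAbs.primeFactors)
    (f := fun p : ℕ => p)
  rw [← h]
  refine Nat.le_mul_of_pos_right _ (Nat.pos_of_ne_zero (Finset.prod_ne_zero_iff.mpr fun _ hp => ?_))
  exact (Nat.prime_of_mem_primeFactors (Finset.mem_inter.mp hp).1).ne_zero

theorem abs_eq_rad {x : ℤ} (h : Squarefree x) : |(x : ℝ)| = rad x := by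
  have h3 : Squarefree x.natAbs := Int.squarefree_natAbs.mpr h
  have h4 : rad x = x.natAbs := Nat.prod_primeFactors_of_squarefree h3
  rw [h4, Nat.cast_natAbs]
  push_cast
  rfl

theorem result (K : ℕ) (ε : ℝ) (hε : 0 < ε) : ∃ δ : ℝ, 0 < δ ∧ ∃ t₀ : ℕ, ∀ p v t : ℕ, p.Prime →
    t = p ^ v → t₀ ≤ t →
    ∀ (n : ℕ) (F : Fin n → ℤ[X]), Bases K ((t : ℝ) ^ δ) F →
    ∀ (k : ℕ) (r s : Fin k → ℤ), Points ((t : ℝ) ^ δ) r s →
    ∀ b c : Fin n → ℕ, (used b c).Nonempty →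
    ∀ x₀ x₁ Q : ℤ, x₀ = ∏ i, (F i).eval (t : ℤ) ^ b i → x₁ = ∏ i, (F i).eval (t : ℤ) ^ c i →
      Q = ∏ i ∈ used b c, (F i).eval (t : ℤ) →
    ∀ (m : Fin k → ℕ) (u : Fin k → ℤ), (∀ j, u j ≠ 0) →
      (∀ j, s j * x₀ - r j * x₁ = (p : ℤ) ^ m j * u j) →
      (max |(x₀ : ℝ)| |(x₁ : ℝ)|) ^ ((k : ℝ) * (1 - ε)) ≤ |(Q : ℝ)| * ∏ j, |(u j : ℝ)| ∧
      (max |(x₀ : ℝ)| |(x₁ : ℝ)|) ^ ((k : ℝ) * (1 - ε)) * (rad Q * ∏ j, (rad (u j) : ℝ)) ≤
        |(Q : ℝ)| * (∏ j, |(u j : ℝ)|) *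
          (rad x₀ * rad x₁ * ∏ j, (rad (s j * x₀ - r j * x₁) : ℝ)) ∧
      (Squarefree Q → (∀ j, Squarefree (u j)) →
        (max |(x₀ : ℝ)| |(x₁ : ℝ)|) ^ ((k : ℝ) * (1 - ε)) ≤
          rad x₀ * rad x₁ * ∏ j, (rad (s j * x₀ - r j * x₁) : ℝ)) := by
  obtain ⟨δ, hδ, hδ', t₀, ht₀, h⟩ := Pool.Agent.Q103.SD.many K ε hε
  refine ⟨δ, hδ, t₀, ?_⟩
  intro p v t hp htp ht n F hS k r s hV b c hU x₀ x₁ Q hx₀ hx₁ hQ m u hu heq
  have htR : (64 : ℝ) ≤ t := by exact_mod_cast ht₀.trans ht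
  have ht0 : (0 : ℝ) < t := by linarith
  obtain ⟨H, hH⟩ : ∃ H : ℝ, H = (t : ℝ) ^ δ := ⟨_, rfl⟩
  have hH1 : 1 ≤ H := by rw [hH]; exact Real.one_le_rpow (by linarith) hδ.le
  have hD : Pool.Agent.Q103.SD.Data2 t K ((t : ℝ) ^ δ) F 1 1 :=
    ⟨hS.pos, hS.deg, hS.digits, hS.last, hS.first, one_ne_zero, one_ne_zero,
      by rw [← hH]; simpa using hH1, by rw [← hH]; simpa using hH1⟩
  have hVal : Pool.Agent.Q103.SD.Values ((t : ℝ) ^ δ) s r :=
    ⟨hV.s_ne, hV.r_ne, hV.s_le, hV.r_le, fun i j hij h1 => hV.distinct i j hij (by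
      rw [mul_comm (r i), mul_comm (r j)]; exact h1.symm)⟩
  have hmain := h p v t hp htp ht n F hD k s r hVal b c hU m u hu (fun j => by
    rw [← hx₀, ← hx₁]; exact heq j)
  have hQ' : ∏ i ∈ Pool.Agent.Q103.SD.used2 b c, (F i).eval (t : ℤ) = Q := hQ.symm
  rw [← hx₀, ← hx₁, hQ', max_comm, mul_comm (∏ j, |(u j : ℝ)|)] at hmain
  have hHt : 8 * H ≤ t := by
    obtain ⟨ρ, hρ⟩ : ∃ ρ : ℝ, ρ = (t : ℝ) ^ (1 / 2 : ℝ) := ⟨_, rfl⟩
    have hρρ : ρ * ρ = t := by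
      rw [hρ, ← Real.rpow_add ht0]
      norm_num
    have hρ8 : 8 ≤ ρ := by
      have hρ0 : 0 ≤ ρ := by rw [hρ]; positivity
      nlinarith
    have hHρ : H ≤ ρ := by
      rw [hH, hρ]
      exact Real.rpow_le_rpow_of_exponent_le (by linarith) (by linarith)
    nlinarith
  have hF0 : ∀ i, (F i).eval (t : ℤ) ≠ 0 := by
    intro i h0
    have h3 := (Pool.Agent.Q103.SD.values (H := H) (by rw [hH]; exact hD) (ht₀.trans ht) hH1
      hHt).2.1 i
    rw [h0, Int.cast_zero, abs_zero] at h3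
    linarith
  have hprod : ∀ e : Fin n → ℕ, ∏ i, (F i).eval (t : ℤ) ^ e i ≠ 0 := fun e =>
    Finset.prod_ne_zero_iff.mpr fun i _ => pow_ne_zero _ (hF0 i)
  have hx₀0 : x₀ ≠ 0 := by rw [hx₀]; exact hprod b
  have hx₁0 : x₁ ≠ 0 := by rw [hx₁]; exact hprod c
  have hrQ : rad Q ≤ rad x₀ * rad x₁ := by
    refine le_trans ?_ (rad_mul_le hx₀0 hx₁0)
    refine Pool.Agent.Q103.SD.rad_le (mul_ne_zero hx₀0 hx₁0) fun l hl hlQ => ?_
    have hll : Prime (l : ℤ) := Nat.prime_iff_prime_int.mp hl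
    rw [hQ] at hlQ
    obtain ⟨i, hi, hli⟩ := (hll.dvd_finsetProd_iff _).mp hlQ
    have hd : ∀ e : Fin n → ℕ, e i ≠ 0 → (l : ℤ) ∣ ∏ i, (F i).eval (t : ℤ) ^ e i := fun e he =>
      (hli.trans (dvd_pow_self _ he)).trans
        (Finset.dvd_prod_of_mem (fun i => (F i).eval (t : ℤ) ^ e i) (Finset.mem_univ i))
    rcases (Finset.mem_filter.mp hi).2 with h | h
    · rw [hx₀]; exact (hd b h).mul_right _
    · rw [hx₁]; exact (hd c h).mul_left _
  have hru : ∀ j, rad (u j) ≤ rad (s j * x₀ - r j * x₁) := by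
    intro j
    rw [heq j]
    refine Pool.Agent.Q103.SD.rad_le (mul_ne_zero (pow_ne_zero _ (by exact_mod_cast hp.ne_zero))
      (hu j)) fun l _ hlu => hlu.mul_left _
  have hrprod : (rad Q : ℝ) * ∏ j, (rad (u j) : ℝ) ≤
      rad x₀ * rad x₁ * ∏ j, (rad (s j * x₀ - r j * x₁) : ℝ) := by
    apply mul_le_mul (by exact_mod_cast hrQ) _
      (Finset.prod_nonneg fun j _ => Nat.cast_nonneg _) (by positivity)
    exact Finset.prod_le_prod (fun j _ => Nat.cast_nonneg _) fun j _ => by exact_mod_cast hru j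
  refine ⟨hmain, mul_le_mul hmain hrprod (mul_nonneg (Nat.cast_nonneg _)
    (Finset.prod_nonneg fun j _ => Nat.cast_nonneg _)) (mul_nonneg (abs_nonneg _)
    (Finset.prod_nonneg fun j _ => abs_nonneg _)), fun hsQ hsu => hmain.trans ?_⟩
  rw [abs_eq_rad hsQ, Finset.prod_congr rfl fun j _ => abs_eq_rad (hsu j)]
  exact hrprod

end Pool.Agent.Results.MP_4d5ce1_nt.SparsePoints
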